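import Pool.Agent.Helper96.Kod.Goals
import Pool.Agent.Helper16.Abund.Several

/-! Packet K3: termwise differentiation. -/

open scoped Topology
open Metric Pool.Agent.Helper16.Abund

namespace Pool.Agent.Helper96.Kod

universe u v

theorem stmtK3 : StmtK3.{u, v} := by
  intro E _ _ ι f u U hU hf hu hb z hz
  obtain ⟨ρ, hρ, hsub⟩ := Metric.isOpen_iff.1 hU z hz
  have h2 : 0 < ρ / 2 := by positivity
  have hball : ∀ w ∈ ball z (ρ / 2), ball w (ρ / 2) ⊆ U := by
    intro w hw
    refine (ball_subset_ball' ?_).trans hsub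
    have := (mem_ball.1 hw).le
    linarith
  have hbd : ∀ i, ∀ w ∈ ball z (ρ / 2), ‖fderiv ℂ (f i) w‖ ≤ 2 * u i / (ρ / 2) := by
    intro i w hw
    exact norm_fderiv_le h2 ((hf i).mono (hball w hw)) fun x hx => hb i x (hball w hw hx)
  have hsum : Summable fun i => 2 * u i / (ρ / 2) := (hu.mul_left 2).div_const _
  refine ⟨Summable.of_nonneg_of_le (fun i => norm_nonneg _)
    (fun i => hbd i z (mem_ball_self h2)) hsum, ?_⟩
  exact hasFDerivAt_tsum_of_isPreconnected (𝕜 := ℂ) (f := f)
    (f' := fun i w => fderiv ℂ (f i) w)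
    (u := fun i => 2 * u i / (ρ / 2)) (s := ball z (ρ / 2)) (x₀ := z) (x := z)
    hsum isOpen_ball
    (convex_ball z (ρ / 2)).isPreconnected
    (by
      intro i w hw
      exact ((hf i).differentiableAt (hU.mem_nhds (hball w hw (mem_ball_self h2)))).hasFDerivAt)
    hbd
    (mem_ball_self h2)
    (Summable.of_norm_bounded hu fun i => hb i z hz)
    (mem_ball_self h2)

end Pool.Agent.Helper96.Kod
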